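import Pool.Agent.Helper61.II.Neat
import Pool.Agent.Helper61.II.Avg

/-!
# Exact averages of Ichino–Ikeda periods on definite orthogonal groups of all ranks

`F` is a totally real number field, `W` a totally positive definite quadratic space over `F` of any
dimension, with form `S` over `𝓞_F`, and `V = W ⊥ ⟨a⟩` with `a ∈ 𝓞_F` totally positive, so that
`H = SO(W)` is a subgroup of `G = SO(V)`.  For `N ∈ 𝓞_F` let `K(N)` be the principal congruence subgroup
of level `N` in `G(𝔸_f)`, and let `K` be any subgroup of `K(N)` (any level, with any ramification at the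
places dividing `N`); let `ρ` be any unitary representation of `G(F)` on a space `E`, for example the
restriction of a unitary representation of the compact group `G(F_∞)`.  The automorphic forms on `G` of
level `K` and weight `ρ` are the functions `φ : G(𝔸_f) → E` with `φ(γ g k) = ρ(γ) φ(g)`, and similarly
for `H`, with the level `K ∩ H(𝔸_f)` and the weight `ρ|_H`.  Every automorphic representation of `G` and
of `H` is covered by such forms.  For a Hecke function `h` let `T_h` be the Hecke operator, and let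
`h|_H` be its restriction to `H(𝔸_f)`.

We compute the average over an orthonormal basis `(φ_i)` of the Hilbert space of the forms on `G` of the
products of the periods `Per(T_h φ_i, f₁) · conj Per(φ_i, f₂)` exactly: for all forms `f₁`, `f₂` on `H`
and every `h` of denominator `c`, as soon as `|Norm N|² > 4^[F:ℚ] |Norm a| |Norm c|²`, the average is

  `⟨f₁, T_{h|_H} f₂⟩`.

There is no error term, and no condition on the dimension, the weight, on `f₁`, `f₂`, on the
ramification at the places dividing `N`, or on the places where `h` is supported. For Hecke eigenforms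
`φ_i` this is the average of `λ_i 𝒫(φ_i, f)`, where `𝒫(φ, f) = |∫_{[H]} ⟨f, φ⟩|²` is the global period of
Ichino and Ikeda, and if `f` is an eigenform of `T_{h|_H}` with the eigenvalue `μ = ∫_{H(𝔸_f)} h ω`
(`ω` the spherical matrix coefficient), it is `μ ‖f‖²`. The numbers `∫_{H_S} h ω` are the averages, over
the Plancherel measure of the representations `σ_S` of `G_S` with the Hecke eigenvalue `ĥ(σ_S)`, of the
products of the local periods `𝒫_v^♮(σ_v, τ_v)` of Ichino and Ikeda.

Proof. `∑_i φ_i(x) ⊗ φ_i(y)^*` is the reproducing kernel, so the average is a sum over the `γ ∈ G(F)`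
with `x⁻¹ γ y` in the support of `h`, `x, y ∈ H(𝔸_f)`. Let `e` be the basis vector of `⟨a⟩` and
`w = γ e - e`. Then `c² Q(w)` is divisible by `N²`, and `0 ≤ Q(w) ≤ 4 a` at the infinite places since
`Q(γ e - e) + Q(γ e + e) = 4 a`. So `Q(w) = 0`, `w = 0` and `γ ∈ H(F)`.
-/

namespace Pool.Agent.Results.MP_f4c338_nt.ExactAverages

open Matrix NumberField IsDedekindDomain Pool.Agent.Helper61.II
open scoped ComplexConjugate

variable {F : Type*} [Field F] [NumberField F] {ι : Type*} [Fintype ι] [DecidableEq ι]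
  {E : Type*} [NormedAddCommGroup E] [InnerProductSpace ℂ E]

/-- The automorphic forms on `H` of level `K ∩ H(𝔸_f)` and weight `ρ|_H` which are not zero only at
finitely many points of `H(F) \ H(𝔸_f) / (K ∩ H(𝔸_f))`. -/
def FormH (S : Matrix ι ι (𝓞 F)) (a : 𝓞 F) (K : Subgroup (GA (extend S a)))
    (ρ : GA (extend S a) → E → E) (f : GA S → E) : Prop :=
  IsFinForm (GQ S) (K.comap (emb S a)) (fun y => ρ (emb S a y)) f

/-- The inner product `⟨f₁, f₂⟩`: the sum of `⟨f₁(y), f₂(y)⟩` over the points `y` of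
`H(F) \ H(𝔸_f) / (K ∩ H(𝔸_f))`. -/
noncomputable def innerH (S : Matrix ι ι (𝓞 F)) (a : 𝓞 F) (K : Subgroup (GA (extend S a)))
    (f₁ f₂ : GA S → E) : ℂ :=
  pairing (GQ S) (K.comap (emb S a)) f₁ f₂

/-- The period integral `∫_{[H]} ⟨f, φ⟩`: the sum of `⟨f(y), φ(y)⟩` over the points
`y` of `H(F) \ H(𝔸_f) / (K ∩ H(𝔸_f))`. -/
noncomputable def Per (S : Matrix ι ι (𝓞 F)) (a : 𝓞 F) (K : Subgroup (GA (extend S a)))
    (φ : GA (extend S a) → E) (f : GA S → E) : ℂ :=
  innerH S a K f (fun y => φ (emb S a y))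

/-- The Hecke operator of the restriction `h|_H`. -/
noncomputable def heckeH (S : Matrix ι ι (𝓞 F)) (a : 𝓞 F) (K : Subgroup (GA (extend S a)))
    (h : GA (extend S a) → ℂ) (f : GA S → E) : GA S → E :=
  heckeOp (K.comap (emb S a)) (fun y => h (emb S a y)) f

/-- **Exact averages of Ichino–Ikeda periods.** -/
theorem result [IsTotallyReal F] (S : Matrix ι ι (𝓞 F)) (hS : TotPos S) (a : 𝓞 F)
    (ha : ∀ σ : F →+* ℝ, 0 < σ (algebraMap (𝓞 F) F a)) (c N : 𝓞 F) (hc : c ≠ 0)
    (hN : (4 : ℤ) ^ Module.finrank ℚ F * |Algebra.norm ℤ a| * |Algebra.norm ℤ c| ^ 2 <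
      |Algebra.norm ℤ N| ^ 2)
    (K : Subgroup (GA (extend S a))) (hK : ∀ g ∈ K, Near 1 N g)
    (h : GA (extend S a) → ℂ) (hh : IsHecke K h) (hsupp : ∀ g, h g ≠ 0 → Near c N g)
    (ρ : GA (extend S a) → E → E) (hρ : IsWeight (GQ (extend S a)) ρ) :
    -- the forms of weight `ρ` and level `K` and their values at representatives
    (∀ x γ : GA (extend S a), γ ∈ GQ (extend S a) → x⁻¹ * γ * x ∈ K → γ = 1) ∧
    (∀ u : Space (GQ (extend S a)) K → E, ∃! φ : GA (extend S a) → E,
      IsForm (GQ (extend S a)) K ρ φ ∧ ∀ x, φ (rep x) = u x) ∧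
    -- the average over an orthonormal basis of the Hilbert space of the forms
    (∀ {κ : Type*} (φ : κ → GA (extend S a) → E), IsBasis (GQ (extend S a)) K ρ φ →
      (∀ f₁ f₂ : GA S → E, FormH S a K ρ f₁ → FormH S a K ρ f₂ →
        HasSum (fun i => Per S a K (heckeOp K h (φ i)) f₁ * conj (Per S a K (φ i) f₂))
          (innerH S a K f₁ (heckeH S a K h f₂))) ∧
      (∀ (f : GA S → E) (eig : κ → ℂ) (μ : ℂ), FormH S a K ρ f →
        (∀ i, heckeOp K h (φ i) = fun g => eig i • φ i g) →
        heckeH S a K h f = (fun g => μ • f g) →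
        HasSum (fun i => eig i * ((‖Per S a K (φ i) f‖ ^ 2 : ℝ) : ℂ)) (μ * innerH S a K f f))) := by
  have ha0 : a ≠ 0 := by
    rintro rfl
    obtain ⟨v⟩ : Nonempty (InfinitePlace F) := inferInstance
    have := ha (InfinitePlace.embedding_of_isReal (IsTotallyReal.isReal v))
    rw [map_zero, map_zero] at this
    exact lt_irrefl _ this
  have hna : 1 ≤ |Algebra.norm ℤ a| := Int.one_le_abs (Algebra.norm_ne_zero_iff.mpr ha0)
  have hnc : 1 ≤ |Algebra.norm ℤ c| := Int.one_le_abs (Algebra.norm_ne_zero_iff.mpr hc)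
  have hneat : IsNeat (GQ (extend S a)) K := by
    intro x γ hγ hx
    refine neat (hS.extend ha) (c := 1) (N := N) one_ne_zero ?_ x γ hγ (hK _ hx)
    refine lt_of_le_of_lt ?_ hN
    rw [map_one, abs_one, one_pow, mul_one]
    have h1 : (1 : ℤ) ≤ |Algebra.norm ℤ a| * |Algebra.norm ℤ c| ^ 2 := by nlinarith
    have h2 : (0 : ℤ) < 4 ^ Module.finrank ℚ F := by positivity
    nlinarith
  have hgeo : ∀ (y y' : GA S) (γ : GA (extend S a)), γ ∈ GQ (extend S a) →
      h ((emb S a y)⁻¹ * γ * emb S a y') ≠ 0 → γ ∈ (GQ S).map (emb S a) :=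
    fun y y' γ hγ hne => geometric hS ha hc hN y y' γ hγ (hsupp _ hne)
  refine ⟨hneat, fun u => existsUnique_form hneat hρ u, ?_⟩
  intro κ φ hφ
  have main : ∀ f₁ f₂ : GA S → E, FormH S a K ρ f₁ → FormH S a K ρ f₂ →
        HasSum (fun i => Per S a K (heckeOp K h (φ i)) f₁ * conj (Per S a K (φ i) f₂))
          (innerH S a K f₁ (heckeH S a K h f₂)) :=
    fun f₁ f₂ h₁ h₂ => hasSum_pairing (emb S a) (GQ_le S a) hneat hρ hφ hh hgeo h₁ h₂
  refine ⟨main, ?_⟩
  intro f eig μ hf heig hμ
  have h1 := main f f hf hf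
  have e1 : (fun i => Per S a K (heckeOp K h (φ i)) f * conj (Per S a K (φ i) f)) =
      fun i => eig i * ((‖Per S a K (φ i) f‖ ^ 2 : ℝ) : ℂ) := by
    funext i
    have e : Per S a K (heckeOp K h (φ i)) f = eig i * Per S a K (φ i) f := by
      rw [heig i]
      exact pairing_smul hf (eig i) (fun y => φ i (emb S a y))
    rw [e, mul_assoc, Complex.mul_conj, Complex.normSq_eq_norm_sq]
  have e2 : innerH S a K f (heckeH S a K h f) = μ * innerH S a K f f := by
    rw [hμ]
    exact pairing_smul hf μ f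
  rw [e1, e2] at h1
  exact h1

end Pool.Agent.Results.MP_f4c338_nt.ExactAverages
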