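import Pool.Agent.Helper61.II.Many

/-!
# Every form on `SO(n)` has nonzero Ichino–Ikeda period with many forms on `SO(n + 1)`

`F` is a totally real number field, `W` a totally positive definite quadratic space over `F` of any
dimension `n ≥ 2`, with form `S` over `𝓞_F`, and `V = W ⊥ ⟨a⟩` with `a ∈ 𝓞_F` totally positive, so that
`H = SO(W)` is a subgroup of `G = SO(V)`. Let `K(N)` be the principal congruence subgroup of level `N`
of `G(𝔸_f)`, and let `ρ` be any unitary representation of `G(F)` (the weight). For `c ∈ 𝓞_F` let `T_c` be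
the Hecke operator of the characteristic function of the set `D_c` of the `g ∈ G(𝔸_f)` such that
`c (g - 1) ∈ N M(𝓞̂)` and `c` times all the `2 × 2` minors of `g` are integral. If `c` is squarefree and
prime to `2 a det(S) N`, this is the product of the Hecke operators of the double cosets
`K_v diag(π, 1, …, 1, π⁻¹) K_v` and `K_v` over the places `v` dividing `c`.

Let `f ≠ 0` be any automorphic form on `H` of level `K(N) ∩ H(𝔸_f)` and weight `ρ|_H`, and let `(φ_i)`
be any orthonormal basis of the automorphic forms on `G` of level `K(N)` and weight `ρ` which consists of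
joint eigenforms of the `T_c`, `c ∈ C`, where `C` is a finite set of pairwise not associated squarefree
`c` prime to `2 a det(S) N`, with `4^[F:ℚ] |Norm a| |Norm (c c')|² < |Norm N|²` for all `c, c' ∈ C`. Then
the forms `φ_i` with `∫_{[H]} ⟨f, φ_i⟩ ≠ 0` have at least `|C|` different systems of eigenvalues. So for
every automorphic representation `τ` of `H` (of that level) there are at least `≫ |Norm N|^{1/2 - ε}`
automorphic representations `σ` of `G` of level `K(N)`, with pairwise different unramified Hecke
eigenvalues, for which the global period `𝒫` of Ichino and Ikeda on `σ ⊗ τ` is not zero.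

Proof. If there were fewer than `|C|` systems, then a linear combination of the functionals
`φ ↦ Per(T_c φ, f)` would vanish, and so would the same combination of the functions
`R_c(z) = ∑_i Per(T_c φ_i, f) φ_i(z)^*`. Let `x₀ ∈ H(𝔸_f)` with `f(x₀) ≠ 0`, and let `t_c ∈ G(𝔸_f)` be
the product, at the places dividing `c`, of the reflections in `u + e` and `e`, where `e` is the basis
vector of `⟨a⟩` and `u ∈ W` is such that `Q(u) + a` has the valuation `1`. By the geometric lemma (which
uses that `G(F_∞)` is compact) `R_{c'}(x₀ t_c) ≠ 0` only if `η t_c ∈ D_{c'}` for some `η ∈ H(𝔸_f)`. The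
denominator of `η t_c e` shows that `c` divides `c'`, and if `c = c'` the condition on the minors shows that
`η ∈ K(N)`, so that `R_c(x₀ t_c) = f(x₀)^*`. So the functions `R_c` are linearly independent.

The approximation of finite adeles and the choice of `u` are joint work with seat helper18.
-/

namespace Pool.Agent.Results.MP_f4c338_nt.ManyNonvanishing

open Matrix NumberField IsDedekindDomain Pool.Agent.Helper61.II

variable {F : Type*} [Field F] [NumberField F] {ι : Type*} [Fintype ι] [DecidableEq ι]
  {E : Type*} [NormedAddCommGroup E] [InnerProductSpace ℂ E]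

/-- The period integral `∫_{[H]} ⟨f, φ⟩`: the sum of `⟨f(y), φ(y)⟩` over the points
`y` of `H(F) \ H(𝔸_f) / K_H(N)`. -/
noncomputable def Per (S : Matrix ι ι (𝓞 F)) (a N : 𝓞 F) (φ : GA (extend S a) → E)
    (f : GA S → E) : ℂ :=
  pairing (GQ S) (level S N) f (fun y => φ (emb S a y))

/-- **Many forms with nonzero period.** -/
theorem result [IsTotallyReal F] (S : Matrix ι ι (𝓞 F)) (hS : TotPos S)
    (hι : 2 ≤ Fintype.card ι) (a : 𝓞 F) (ha : ∀ σ : F →+* ℝ, 0 < σ (algebraMap (𝓞 F) F a))
    (N : 𝓞 F) (C : Finset (𝓞 F)) (hC : ∀ c ∈ C, Adm S a N c)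
    (hass : ∀ c ∈ C, ∀ c' ∈ C, Associated c c' → c = c')
    (hN : ∀ c ∈ C, ∀ c' ∈ C, (4 : ℤ) ^ Module.finrank ℚ F * |Algebra.norm ℤ a| *
      |Algebra.norm ℤ (c * c')| ^ 2 < |Algebra.norm ℤ N| ^ 2)
    (ρ : GA (extend S a) → E → E) (hρ : IsWeight (GQ (extend S a)) ρ) {κ : Type*}
    (φ : κ → GA (extend S a) → E)
    (hφ : IsBasis (GQ (extend S a)) (level (extend S a) N) ρ φ) (eig : κ → 𝓞 F → ℂ)
    (heig : ∀ i, ∀ c ∈ C, heckeOp (level (extend S a) N) (ind c N) (φ i) =
      fun g => eig i c • φ i g)
    (f : GA S → E) (hf : IsFinForm (GQ S) (level S N) (fun y => ρ (emb S a y)) f) (hf0 : f ≠ 0) :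
    (∀ c ∈ C, IsHecke (level (extend S a) N) (ind c N)) ∧
    (C.card : ℕ∞) ≤ Set.encard {lam : C → ℂ | ∃ i, Per S a N (φ i) f ≠ 0 ∧
      lam = fun c : C => eig i c} := by
  refine ⟨fun c hc => isHecke_ind (hC c hc).1 ?_, many hS hι ha C hC hass hN hρ hφ eig heig hf hf0⟩
  rintro rfl
  have := hN c hc c hc
  rw [Algebra.norm_zero, abs_zero, zero_pow two_ne_zero] at this
  have h2 : (0 : ℤ) ≤ (4 : ℤ) ^ Module.finrank ℚ F * |Algebra.norm ℤ a| *
    |Algebra.norm ℤ (c * c)| ^ 2 := by positivity
  linarith

end Pool.Agent.Results.MP_f4c338_nt.ManyNonvanishing
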