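import Pool.Agent.Helper61.II.Mixed.Group
import Pool.Agent.Helper61.II.Mixed.Glue

/-!
# Exact averages of products of Ichino–Ikeda periods along two different subgroups

`F` is a totally real number field, `V = F^κ` a totally positive definite quadratic space over `F` of
dimension `n + 1 ≥ 3` with form `M` over `𝓞_F`, and `v₁`, `v₂` are linearly independent integral vectors
of `V`, of any lengths. Let `G = SO(V)`, let `H₁ = SO(v₁^⊥)` and `H₂ = SO(v₂^⊥)` be their stabilizers and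
`H₁₂ = H₁ ∩ H₂ = SO(⟨v₁, v₂⟩^⊥)`. So `(G, H₁)` and `(G, H₂)` are two pairs as in the conjecture of Ichino
and Ikeda, and `(H₁, H₁₂)`, `(H₂, H₁₂)` are pairs of the same kind in dimension one less.

Let `f₁`, `f₂` be automorphic forms on `H₁` and `H₂`, and let `φ_i` run through an orthonormal basis of the
space of the automorphic forms on `G` (any weight, level `K(N, E)` below). We show that, as soon as
`|Norm N|² > 4^[F:ℚ] |Norm Q(v₁)| |Norm Q(v₂)|`,

  `∑_i Per_{H₁}(φ_i, f₁) · conj Per_{H₂}(φ_i, f₂) = Per_{H₁₂}(f₁, f₂)`,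

where `Per_{H₁₂}(f₁, f₂)` is the period of `f₁ ⊗ conj f₂` over `H₁₂`. There is no error term, and no
condition on the dimension, the weight, the forms or the vectors. In particular, if `f₁` and `f₂` are not
orthogonal on `H₁₂` then for every orthonormal basis (for example, one consisting of Hecke eigenforms) there
is a `φ_i` for which both periods are not zero. By the conjecture of Ichino and Ikeda this is a
simultaneous nonvanishing theorem for central values: `L(1/2, σ × τ₁) L(1/2, σ × τ₂) ≠ 0`.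

The level `K(N, E)` consists of the `g ∈ G(𝔸_f)` with `g ≡ 1` modulo `N` and `g v_i ≡ v_i` modulo `N E`,
where `E` is any multiple of `4 D² Q(w)`; `D` is the Gram determinant of `v₁`, `v₂` and `w ≠ 0` is any
integral vector orthogonal to both. (These are arbitrarily small open compact subgroups.)

Proof. The sum is a sum over `γ ∈ G(F)` and `x ∈ H₁(𝔸_f)`, `y ∈ H₂(𝔸_f)` with `x⁻¹ γ y ∈ K`. Then
`⟨v₁, γ v₂⟩ - ⟨v₁, v₂⟩` is divisible by `N`, and it is bounded at the infinite places, so it is zero; by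
an explicit case of Witt's theorem `γ ∈ H₁(F) H₂(F)`, and we may assume that `γ = 1`. So `x⁻¹ y ∈ K`, and it
remains to see that `K ∩ H₁(𝔸_f) H₂(𝔸_f) = (K ∩ H₁(𝔸_f)) (K ∩ H₂(𝔸_f))`, which is a statement about
vectors congruent to `v₁` with the same length and the same inner product with `v₂`, at all places.
-/

namespace Pool.Agent.Results.MP_f4c338_nt.MixedPeriods

open Matrix NumberField IsDedekindDomain Pool.Agent.Helper61.II Pool.Agent.Helper61.II.Mixed
open scoped ComplexConjugate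

variable {F : Type*} [Field F] [NumberField F] {κ : Type*} [Fintype κ] [DecidableEq κ]
  {E : Type*} [NormedAddCommGroup E] [InnerProductSpace ℂ E]

/-- The automorphic forms on the subgroup `H` of level `K ∩ H` and weight `ρ|_H` which are not zero only at
finitely many points of `H(F) \ H(𝔸_f) / (K ∩ H)`. -/
def FormOn (M : Matrix κ κ (𝓞 F)) (K H : Subgroup (GA M)) (ρ : GA M → E → E) (f : H → E) : Prop :=
  IsFinForm ((GQ M).comap H.subtype) (K.comap H.subtype) (fun y => ρ y) f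

/-- The sum of `⟨f(y), φ(y)⟩` over the points `y` of `H(F) \ H(𝔸_f) / (K ∩ H)`. -/
noncomputable def innerOn (M : Matrix κ κ (𝓞 F)) (K H : Subgroup (GA M)) (f φ : H → E) : ℂ :=
  pairing ((GQ M).comap H.subtype) (K.comap H.subtype) f φ

/-- The period integral `∫_{[H]} ⟨f, φ⟩`. -/
noncomputable def Per (M : Matrix κ κ (𝓞 F)) (K H : Subgroup (GA M)) (φ : GA M → E) (f : H → E) : ℂ :=
  innerOn M K H f (fun y => φ y)

/-- The restriction of a function on `H₁` to `H₁ ∩ H₂`. -/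
def resL {U : Type*} [Group U] {H₁ H₂ : Subgroup U} (f : H₁ → E) (y : ↥(H₁ ⊓ H₂)) : E := f ⟨y.1, y.2.1⟩

/-- The restriction of a function on `H₂` to `H₁ ∩ H₂`. -/
def resR {U : Type*} [Group U] {H₁ H₂ : Subgroup U} (f : H₂ → E) (y : ↥(H₁ ⊓ H₂)) : E := f ⟨y.1, y.2.2⟩

/-- The period integral `∫_{[H₁₂]} ⟨f₁, f₂⟩`, where `H₁₂ = H₁ ∩ H₂`. -/
noncomputable def Per₁₂ (M : Matrix κ κ (𝓞 F)) (K H₁ H₂ : Subgroup (GA M)) (f₁ : H₁ → E)
    (f₂ : H₂ → E) : ℂ :=
  innerOn M K (H₁ ⊓ H₂) (resL f₁) (resR f₂)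

/-- The Gram determinant `D` of `v₁`, `v₂`. -/
def gram (M : Matrix κ κ (𝓞 F)) (v₁ v₂ : κ → 𝓞 F) : 𝓞 F := qf M v₁ * qf M v₂ - bf M v₁ v₂ ^ 2

/-- The condition `|Norm N|² > 4^[F:ℚ] |Norm Q(v₁)| |Norm Q(v₂)|`. -/
def IsLarge (M : Matrix κ κ (𝓞 F)) (v₁ v₂ : κ → 𝓞 F) (N : 𝓞 F) : Prop :=
  (4 : ℤ) ^ Module.finrank ℚ F * |Algebra.norm ℤ (qf M v₁)| * |Algebra.norm ℤ (qf M v₂)| <
    |Algebra.norm ℤ N| ^ 2

/-- The group `K` of the `g ∈ G(𝔸_f)` with `g ≡ 1` modulo `N` and `g v₁ ≡ v₁`, `g v₂ ≡ v₂` modulo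
`N · 4 D² Q(w) E'`. -/
def levelK (M : Matrix κ κ (𝓞 F)) (v₁ v₂ w : κ → 𝓞 F) (N E' : 𝓞 F) : Subgroup (GA M) :=
  lvl M v₁ v₂ N (4 * gram M v₁ v₂ ^ 2 * (qf M w * E'))

/-- `G(F)` meets the conjugates of `K` trivially, and the forms of level `K` and weight `ρ` correspond to the
functions on `G(F) \ G(𝔸_f) / K`. -/
def GoodLevel (M : Matrix κ κ (𝓞 F)) (K : Subgroup (GA M)) (ρ : GA M → E → E) : Prop :=
  (∀ x γ : GA M, γ ∈ GQ M → x⁻¹ * γ * x ∈ K → γ = 1) ∧
    ∀ u : Space (GQ M) K → E, ∃! φ : GA M → E, IsForm (GQ M) K ρ φ ∧ ∀ x, φ (rep x) = u x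

/-- The average of the products of the periods over the forms `φ i` is the period over `H₁ ∩ H₂`, and if it is
not zero then both periods are not zero for some `φ i`. -/
def MixedAverage (M : Matrix κ κ (𝓞 F)) (K H₁ H₂ : Subgroup (GA M)) {ι : Type*}
    (φ : ι → GA M → E) (f₁ : H₁ → E) (f₂ : H₂ → E) : Prop :=
  HasSum (fun i => Per M K H₁ (φ i) f₁ * conj (Per M K H₂ (φ i) f₂)) (Per₁₂ M K H₁ H₂ f₁ f₂) ∧
    (Per₁₂ M K H₁ H₂ f₁ f₂ ≠ 0 → ∃ i, Per M K H₁ (φ i) f₁ ≠ 0 ∧ Per M K H₂ (φ i) f₂ ≠ 0)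

/-- **Exact averages of mixed products of Ichino–Ikeda periods.** -/
theorem result [IsTotallyReal F] (M : Matrix κ κ (𝓞 F)) (hM : TotPos M) (v₁ v₂ w : κ → 𝓞 F)
    (hv : gram M v₁ v₂ ≠ 0) (hw : w ≠ 0) (hw₁ : bf M w v₁ = 0) (hw₂ : bf M w v₂ = 0)
    (N E' : 𝓞 F) (hN : IsLarge M v₁ v₂ N) (K : Subgroup (GA M))
    (hK : K = levelK M v₁ v₂ w N E') (ρ : GA M → E → E) (hρ : IsWeight (GQ M) ρ) :
    GoodLevel M K ρ ∧
    ∀ {ι : Type*} (φ : ι → GA M → E), IsBasis (GQ M) K ρ φ →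
      ∀ (f₁ : Stab M v₁ → E) (f₂ : Stab M v₂ → E),
        FormOn M K (Stab M v₁) ρ f₁ → FormOn M K (Stab M v₂) ρ f₂ →
          MixedAverage M K (Stab M v₁) (Stab M v₂) φ f₁ f₂ := by
  have hT := symm_of_totPos hM
  obtain ⟨v⟩ : Nonempty (InfinitePlace F) := inferInstance
  set σ : F →+* ℝ := InfinitePlace.embedding_of_isReal (IsTotallyReal.isReal v) with hσ
  have q0 : ∀ x : κ → 𝓞 F, qf M x = 0 → x = 0 := by
    intro x hx
    have h := eq_zero_of_qf' hM σ (rtl x) (by rw [qf_rtl, hx, map_zero])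
    funext i
    have h2 := congrFun h i
    exact (FaithfulSMul.algebraMap_injective (𝓞 F) F) (by
      rw [Pi.zero_apply, map_zero]; exact h2)
  have hq₁ : qf M v₁ ≠ 0 := by
    intro h
    have h0 := q0 v₁ h
    apply hv
    rw [h0]
    simp [gram, qf, bf]
  have hq₂ : qf M v₂ ≠ 0 := by
    intro h
    have h0 := q0 v₂ h
    apply hv
    rw [h0]
    simp [gram, qf, bf]
  have hn₁ : 1 ≤ |Algebra.norm ℤ (qf M v₁)| := Int.one_le_abs (Algebra.norm_ne_zero_iff.mpr hq₁)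
  have hn₂ : 1 ≤ |Algebra.norm ℤ (qf M v₂)| := Int.one_le_abs (Algebra.norm_ne_zero_iff.mpr hq₂)
  have hKN : ∀ g ∈ K, Near 1 N g := by
    intro g hg
    rw [hK] at hg
    exact hg.1
  have hN' : (4 : ℤ) ^ Module.finrank ℚ F * |Algebra.norm ℤ (qf M v₁)| *
      |Algebra.norm ℤ (qf M v₂)| < |Algebra.norm ℤ N| ^ 2 := hN
  have hneat : IsNeat (GQ M) K := by
    intro x γ hγ hx
    refine neat hM (c := 1) (N := N) one_ne_zero ?_ x γ hγ (hKN _ hx)
    refine lt_of_le_of_lt ?_ hN'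
    rw [map_one, abs_one, one_pow, mul_one]
    have h1 : (1 : ℤ) ≤ |Algebra.norm ℤ (qf M v₁)| * |Algebra.norm ℤ (qf M v₂)| := by nlinarith
    have h2 : (0 : ℤ) < 4 ^ Module.finrank ℚ F := by positivity
    nlinarith
  refine ⟨⟨hneat, fun u => existsUnique_form hneat hρ u⟩, ?_⟩
  intro ι φ hφ f₁ f₂ hf₁ hf₂
  have main : HasSum (fun i => Per M K (Stab M v₁) (φ i) f₁ *
      conj (Per M K (Stab M v₂) (φ i) f₂)) (Per₁₂ M K (Stab M v₁) (Stab M v₂) f₁ f₂) := by
    refine mixed hneat hρ hφ ?_ ?_ hf₁ hf₂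
    · intro a ha b hb γ hγ hx
      exact geo hM hw hw₁ hw₂ hN' ha hb hγ (hKN _ hx)
    · intro a ha b hb hx
      rw [hK] at hx ⊢
      exact decomp hT hw₁ hw₂ hq₂ hv E' N ha hb hx
  refine ⟨main, fun hne => ?_⟩
  by_contra hcon
  push Not at hcon
  apply hne
  have h0 : (fun i => Per M K (Stab M v₁) (φ i) f₁ * conj (Per M K (Stab M v₂) (φ i) f₂)) =
      fun _ => 0 := by
    funext i
    by_cases h : Per M K (Stab M v₁) (φ i) f₁ = 0
    · rw [h, zero_mul]
    · rw [hcon i h, map_zero, mul_zero]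
  rw [h0] at main
  exact main.unique hasSum_zero

end Pool.Agent.Results.MP_f4c338_nt.MixedPeriods
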