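import Pool.Agent.Helper61.II.Wt.Def
import Pool.Agent.Helper61.II.Wt.Final

/-!
# Ichino–Ikeda periods in the weight aspect

`F` is a totally real number field, `W` a totally positive definite quadratic space over `F` of any
dimension `n ≥ 2`, with form `S` over `𝓞_F`, and `V = W ⊥ ⟨a⟩` with `a ∈ 𝓞_F` totally positive, so that
`H = SO(W)` is a subgroup of `G = SO(V)`. We fix the level `K`, any subgroup of the principal congruence
subgroup `K(N)` where `|Norm N| > 2^[F:ℚ]`, a unitary representation `ρ'` of `G(F)` (for example the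
restriction of a representation of the compact group `G(F_∞)`), and a real place `σ`. For `k ∈ ℕ` let `V_k` be
the representation of `G(F_σ)` on the harmonic tensors of degree `k`, of highest weight `(k, 0, …, 0)`; it
has a unit vector `z_k` fixed by `H(F_σ)`. For a form `f` on `H` of level `K ∩ H(𝔸_f)` and weight `ρ'|_H`,
and a form `φ` on `G` of level `K` and weight `V_k ⊗ ρ'`, let

  `Per(φ, f) = ∫_{[H]} ⟨z_k ⊗ f(y), φ(y)⟩ dy`

be the period of Gross–Prasad and Ichino–Ikeda. Every automorphic form on `H`, of any weight and level, is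
covered. (If `f` has trivial weight then `φ` has the weight `V_k`. In general the weights of `φ` are the
constituents of `V_k ⊗ ρ'`.) We show that for all `f₁`, `f₂` the average of
`Per(T_h φ, f₁) · conj Per(φ, f₂)` over an orthonormal basis of the space of the forms `φ` tends, as
`k → ∞`, to

  `⟨f₁, T_{h|_H} f₂⟩`,

for every Hecke function `h` of level `K` of a denominator `c` with `N ∤ 2 c` (for example, for all Hecke
functions which are supported at the places not dividing `N`). So, if `f` is a Hecke eigenform, the Hecke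
eigenvalues of the `φ`, weighted by the periods `|Per(φ, f)|²`, become equidistributed for a measure which
only depends on the Hecke eigenvalues of `f`. In particular every form `f ≠ 0` on `H` has, for all large
`k`, a nonvanishing period against a form of weight `V_k ⊗ ρ'` and of the fixed level `K` in every
orthonormal basis.

Proof. The average is a sum over `γ ∈ G(F)` with `x⁻¹ γ y` in the support of `h`, `x`, `y ∈ H(𝔸_f)` in
finite sets, with the factor `Ω_k(γ) = ⟨z_k, γ z_k⟩`. The elements of `H(F)` give the main term. For the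
other `γ` the line of the basis vector `e` of `⟨a⟩` is not fixed, and we prove the formula
`Ω_k(γ) = ∫ (x₀ + i x · u)^k du` (up to complex conjugation), the average over the unit vectors `u` of
`W(F_σ)`, where `(x, x₀)` is the real unit vector `γ e` (by the mean value property of the isotropic
tensors), so that `Ω_k(γ) → 0`.
-/

namespace Pool.Agent.Results.MP_f4c338_nt.WeightAspect

open Matrix NumberField IsDedekindDomain Filter Topology
open Pool.Agent.Helper61.II Pool.Agent.Helper61.II.Wt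
open scoped ComplexConjugate TensorProduct

variable {F : Type*} [Field F] [NumberField F] {ι : Type*} [Fintype ι] [DecidableEq ι]
  {E : Type*} [NormedAddCommGroup E] [InnerProductSpace ℂ E]

/-- The automorphic forms on `H` of level `K ∩ H(𝔸_f)` and weight `ρ'|_H` which are not zero only at
finitely many points of `H(F) \ H(𝔸_f) / (K ∩ H(𝔸_f))`. -/
def FormH (S : Matrix ι ι (𝓞 F)) (a : 𝓞 F) (K : Subgroup (GA (extend S a)))
    (ρ' : GA (extend S a) → E → E) (f : GA S → E) : Prop :=
  IsFinForm (GQ S) (K.comap (emb S a)) (fun y => ρ' (emb S a y)) f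

/-- The inner product `⟨f₁, f₂⟩`: the sum of `⟨f₁(y), f₂(y)⟩` over the points `y` of
`H(F) \ H(𝔸_f) / (K ∩ H(𝔸_f))`. -/
noncomputable def innerH (S : Matrix ι ι (𝓞 F)) (a : 𝓞 F) (K : Subgroup (GA (extend S a)))
    (f₁ f₂ : GA S → E) : ℂ :=
  pairing (GQ S) (K.comap (emb S a)) f₁ f₂

/-- The period: the sum of `⟨z_k ⊗ f(y), φ(y)⟩` over the points `y` of
`H(F) \ H(𝔸_f) / (K ∩ H(𝔸_f))`. -/
noncomputable def Per (S : Matrix ι ι (𝓞 F)) (a : 𝓞 F) (K : Subgroup (GA (extend S a))) {k : ℕ}
    (φ : GA (extend S a) → TT ι k E) (f : GA S → E) : ℂ :=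
  innerH S a K (fun y => tm (zz ι k) (f y)) (fun y => φ (emb S a y))

/-- The Hecke operator of the restriction `h|_H`. -/
noncomputable def heckeH (S : Matrix ι ι (𝓞 F)) (a : 𝓞 F) (K : Subgroup (GA (extend S a)))
    (h : GA (extend S a) → ℂ) (f : GA S → E) : GA S → E :=
  heckeOp (K.comap (emb S a)) (fun y => h (emb S a y)) f

/-- `h` is a Hecke function of level `K` of a denominator `c` with `N ∤ 2 c`. -/
def GoodHecke (S : Matrix ι ι (𝓞 F)) (a : 𝓞 F) (K : Subgroup (GA (extend S a))) (N : 𝓞 F)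
    (h : GA (extend S a) → ℂ) : Prop :=
  IsHecke K h ∧ ∃ c : 𝓞 F, ¬ N ∣ 2 * c ∧ ∀ g, h g ≠ 0 → Near c N g

/-- `ρ` is a unitary representation of `G(F)`, `z_k` is a unit vector, fixed by `H(F)`, and the forms of
level `K` and weight `ρ` correspond to the functions on `G(F) \ G(𝔸_f) / K`. -/
def GoodWeight (S : Matrix ι ι (𝓞 F)) (a : 𝓞 F) (K : Subgroup (GA (extend S a))) (k : ℕ)
    (ρ' : GA (extend S a) → E → E) (ρ : GA (extend S a) → TT ι k E → TT ι k E) : Prop :=
  IsWeight (GQ (extend S a)) ρ ∧ ‖zz ι k‖ = 1 ∧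
    (∀ y ∈ GQ S, ∀ e, ρ (emb S a y) (tm (zz ι k) e) = tm (zz ι k) (ρ' (emb S a y) e)) ∧
    ∀ u : Space (GQ (extend S a)) K → TT ι k E, ∃! φ : GA (extend S a) → TT ι k E,
      IsForm (GQ (extend S a)) K ρ φ ∧ ∀ x, φ (rep x) = u x

/-- **Ichino–Ikeda periods in the weight aspect.** -/
theorem result [IsTotallyReal F] (hn : 2 ≤ Fintype.card ι) (S : Matrix ι ι (𝓞 F)) (hS : TotPos S)
    (a : 𝓞 F) (ha : ∀ σ : F →+* ℝ, 0 < σ (algebraMap (𝓞 F) F a)) (N : 𝓞 F)
    (hN : (4 : ℤ) ^ Module.finrank ℚ F < |Algebra.norm ℤ N| ^ 2)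
    (K : Subgroup (GA (extend S a))) (hK : ∀ g ∈ K, Near 1 N g)
    (ρ' : GA (extend S a) → E → E) (hρ' : IsWeight (GQ (extend S a)) ρ')
    (σ : F →+* ℝ) (B₀ : Matrix ι ι ℝ) (hB : B₀ᵀ * B₀ = S.map fun x => σ (algebraMap (𝓞 F) F x))
    (ρ : ∀ k, GA (extend S a) → TT ι k E → TT ι k E)
    (hρ : ∀ k, IsHarm S a σ B₀ k ρ' (ρ k)) :
    (∀ k, GoodWeight S a K k ρ' (ρ k)) ∧
    -- the limit of the averages over orthonormal bases
    (∀ (h : GA (extend S a) → ℂ) (f₁ f₂ : GA S → E), GoodHecke S a K N h → FormH S a K ρ' f₁ →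
      FormH S a K ρ' f₂ → ∃ A : ℕ → ℂ, Tendsto A atTop (𝓝 (innerH S a K f₁ (heckeH S a K h f₂))) ∧
        ∀ (k : ℕ) {κ : Type*} (φ : κ → GA (extend S a) → TT ι k E),
          IsBasis (GQ (extend S a)) K (ρ k) φ →
            HasSum (fun i => Per S a K (heckeOp K h (φ i)) f₁ * conj (Per S a K (φ i) f₂)) (A k)) ∧
    -- nonvanishing
    (∀ f : GA S → E, FormH S a K ρ' f → f ≠ 0 → ∃ k₀ : ℕ, ∀ k ≥ k₀, ∀ {κ : Type*}
      (φ : κ → GA (extend S a) → TT ι k E), IsBasis (GQ (extend S a)) K (ρ k) φ →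
        ∃ i, Per S a K (φ i) f ≠ 0) := by
  have hneat : IsNeat (GQ (extend S a)) K := by
    intro x γ hγ hx
    refine neat (hS.extend ha) (c := 1) (N := N) one_ne_zero ?_ x γ hγ (hK _ hx)
    rw [map_one, abs_one, one_pow, mul_one]
    exact hN
  have hne : Nonempty ι := Fintype.card_pos_iff.mp (by omega)
  have hB' : B₀ᵀ * B₀ = (S.map (algebraMap (𝓞 F) F)).map σ := hB
  refine ⟨?_, ?_, ?_⟩
  · intro k
    have hw := (hρ k).to.isWeight hρ' hS (ha σ) hB'
    exact ⟨hw, norm_zz k, fun y hy => fix_zz (hρ k).to hS (ha σ) hB' ⟨y, hy, rfl⟩,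
      fun u => existsUnique_form hneat hw u⟩
  · intro h f₁ f₂ hh hf₁ hf₂
    obtain ⟨hh1, c, hcN, hsupp⟩ := hh
    exact limit hn hS ha hneat hB' hρ' hρ hh1 hcN hsupp hf₁.2 hf₂
  · intro f hf hf0
    obtain ⟨A, hA, hsum⟩ := limit (N := N) hn hS ha hneat hB' hρ' hρ (isHecke_oneK K) (c := 1)
      (by rw [mul_one]; exact not_dvd_two hN) (fun g hg => hK g (oneK_ne hg)) hf.2 hf
    have e1 : heckeOp (K.comap (emb S a)) (fun y => oneK K (emb S a y)) f = f := by
      refine heckeOp_oneK (fun y => rfl) ?_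
      intro k hk g
      have h2 := hf.1 1 (GQ S).one_mem k hk g
      rw [one_mul] at h2
      rw [h2]
      have h3 : ρ' (emb S a 1) (f g) = f g := by rw [map_one, hρ'.one]
      exact h3
    rw [e1] at hA
    have h3 : ∀ᶠ k in atTop, A k ≠ 0 :=
      hA.eventually_ne (pairing_self_ne (GQ_le S a) hρ' hf hf0)
    obtain ⟨k₀, hk₀⟩ := eventually_atTop.mp h3
    refine ⟨k₀, fun k hk κ φ hφ => ?_⟩
    by_contra hcon
    push Not at hcon
    apply hk₀ k hk
    have h4 := hsum k φ hφ
    have h5 : (fun i => pairing (GQ S) (K.comap (emb S a)) (fun y => tm (zz ι k) (f y))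
            (fun y => heckeOp K (oneK K) (φ i) (emb S a y)) *
          conj (pairing (GQ S) (K.comap (emb S a)) (fun y => tm (zz ι k) (f y))
            (fun y => φ i (emb S a y)))) = fun _ => 0 := by
      funext i
      have h6 : pairing (GQ S) (K.comap (emb S a)) (fun y => tm (zz ι k) (f y))
            (fun y => φ i (emb S a y)) = 0 := hcon i
      rw [h6, map_zero, mul_zero]
    rw [h5] at h4
    exact h4.unique hasSum_zero

end Pool.Agent.Results.MP_f4c338_nt.WeightAspect
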